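import Pool.Agent.Helper30.CIR.Goals

/-!
# Project CIR, packet CRC (`C^r` closeness; from PAR)
-/

set_option autoImplicit false

open Set Filter Topology MeasureTheory

open scoped ContDiff

namespace Pool.Agent.Helper70.CIR

open Pool.Agent.Helper56.RZ
open Pool.Agent.Helper30.CIR

/-- a positive number below finitely many positive numbers -/
theorem exists_pos_le_all {ι : Type} [Finite ι] (δ : ι → ℝ) (h : ∀ i, 0 < δ i) :
    ∃ d > 0, d ≤ 1 / 2 ∧ ∀ i, d ≤ δ i := by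
  have h1 : ∀ᶠ d in 𝓝[>] (0 : ℝ), ∀ i, d ≤ δ i := by
    rw [Filter.eventually_all]
    intro i
    exact (eventually_le_nhds (h i)).filter_mono nhdsWithin_le_nhds
  have h2 : ∀ᶠ d in 𝓝[>] (0 : ℝ), d ≤ 1 / 2 :=
    (eventually_le_nhds (by norm_num : (0 : ℝ) < 1 / 2)).filter_mono nhdsWithin_le_nhds
  obtain ⟨d, hd⟩ := (h1.and (h2.and self_mem_nhdsWithin)).exists
  exact ⟨d, hd.2.2, hd.2.1, hd.1⟩

/-- `f ∘ ψ` is smooth on `V` -/
theorem smooth_f_psi {N K : ℕ} {s : WithTop ℕ∞} {M : Set (E K)} {f f' : E K → E K}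
    (hs : s ≤ ∞) (hf : IsDiffeo s M f f') (c : Chart N K M) :
    ContDiffOn ℝ s (fun z => f (c.ψ z)) c.V := by
  have h1 : ContDiffOn ℝ s c.ψ c.V := c.smoothψ.of_le hs
  exact hf.smooth.comp h1 (fun z hz => (c.mapsψ z hz).1)

/-- the time shift is smooth -/
theorem smooth_del {K : ℕ} {s : WithTop ℕ∞} {M : Set (E K)} {A : ℝ → E K → E K}
    {F : E K → ℂ} {om : ℝ} (hD : Data s M A F om) :
    ContDiffOn ℝ s (fun p : ℝ × E K => del p.1 om F p.2) ({b : ℝ | |b| < 1} ×ˢ M) := by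
  have hF : ContDiffOn ℝ s (fun p : ℝ × E K => F p.2) ({b : ℝ | |b| < 1} ×ˢ M) :=
    hD.eig.1.comp contDiff_snd.contDiffOn (fun p hp => hp.2)
  have hb : ContDiffOn ℝ s (fun p : ℝ × E K => (p.1 : ℂ)) ({b : ℝ | |b| < 1} ×ˢ M) :=
    (Complex.ofRealCLM.contDiff.comp contDiff_fst).contDiffOn
  have h1 : ContDiffOn ℝ s (fun p : ℝ × E K => 1 + (p.1 : ℂ) * F p.2)
      ({b : ℝ | |b| < 1} ×ˢ M) := contDiffOn_const.add (hb.mul hF)
  have h2 : ContDiffOn ℝ s (fun p : ℝ × E K => Complex.log (1 + (p.1 : ℂ) * F p.2))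
      ({b : ℝ | |b| < 1} ×ˢ M) := by
    intro p hp
    have hmem : 1 + (p.1 : ℂ) * F p.2 ∈ Complex.slitPlane := by
      left
      have hn : ‖(p.1 : ℂ) * F p.2‖ < 1 := by
        rw [norm_mul, Complex.norm_real, Real.norm_eq_abs]
        have ha : |p.1| < 1 := hp.1
        have hb' : ‖F p.2‖ ≤ 1 := hD.le1 p.2 hp.2
        nlinarith [abs_nonneg p.1, norm_nonneg (F p.2)]
      have hre := Complex.abs_re_le_norm ((p.1 : ℂ) * F p.2)
      have := (abs_le.1 hre).1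
      rw [Complex.add_re, Complex.one_re]
      linarith
    have h3 : ContDiffAt ℝ s Complex.log (1 + (p.1 : ℂ) * F p.2) :=
      (Complex.contDiffAt_log hmem).restrict_scalars ℝ
    exact h3.comp_contDiffWithinAt p (h1 p hp)
  have h3 : ContDiffOn ℝ s (fun p : ℝ × E K => (Complex.log (1 + (p.1 : ℂ) * F p.2)).im)
      ({b : ℝ | |b| < 1} ×ˢ M) := Complex.imCLM.contDiff.comp_contDiffOn h2
  have h4 : (fun p : ℝ × E K => del p.1 om F p.2) =
      fun p : ℝ × E K => -(Complex.log (1 + (p.1 : ℂ) * F p.2)).im / (Real.pi * om) := by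
    funext p
    rw [del, Complex.log_im]
  rw [h4]
  exact h3.neg.div_const _

theorem del_zero {K : ℕ} (om : ℝ) (F : E K → ℂ) (x : E K) : del 0 om F x = 0 := by
  simp [del]

/-- packet CRC -/
theorem gCRC (hPAR : StmtPAR) : Pool.Agent.Helper30.CIR.StmtCRC := by
  intro N K r s M f f' A hrs hs hf hA hc ι _ c L hL ε hε
  constructor
  · have hex : ∀ i, ∃ δ > 0, ∀ p z, (p, z) ∈ (({0} : Set ℝ) ×ˢ L i) → ∀ p', ‖p' - p‖ ≤ δ →
        (p', z) ∈ ((univ : Set ℝ) ×ˢ (c i).V) ∧ ∀ k ≤ r,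
        ‖iteratedFDeriv ℝ k (fun z => A p' (f ((c i).ψ z)) - A p (f ((c i).ψ z))) z‖ ≤ ε := by
      intro i
      have hsm : ContDiffOn ℝ r (fun q : ℝ × E N => A q.1 (f ((c i).ψ q.2)))
          ((univ : Set ℝ) ×ˢ (c i).V) := by
        have h1 : ContDiffOn ℝ s (fun q : ℝ × E N => (q.1, f ((c i).ψ q.2)))
            ((univ : Set ℝ) ×ˢ (c i).V) :=
          contDiff_fst.contDiffOn.prodMk
            ((smooth_f_psi hs hf (c i)).comp contDiff_snd.contDiffOn (fun q hq => hq.2))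
        have h2 := hA.smooth.comp h1
          (fun q hq => ⟨mem_univ _, hf.maps ((c i).mapsψ q.2 hq.2).1⟩)
        exact h2.of_le hrs
      exact hPAR ℝ N K r ((univ : Set ℝ) ×ˢ (c i).V) (({0} : Set ℝ) ×ˢ L i)
        (fun q : ℝ × E N => A q.1 (f ((c i).ψ q.2))) (isOpen_univ.prod (c i).openV) hsm
        (isCompact_singleton.prod (hL i).1) (prod_mono (subset_univ _) (hL i).2) ε hε
    choose δ hδ hδ' using hex
    obtain ⟨d, hd, -, hd'⟩ := exists_pos_le_all δ hδ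
    refine ⟨d, hd, ?_⟩
    intro th hth i k hk z hz
    have h1 := (hδ' i 0 z ⟨rfl, hz⟩ th (by
      rw [sub_zero, Real.norm_eq_abs]
      exact hth.trans (hd' i))).2 k hk
    have h2 : (fun z => A th (f ((c i).ψ z)) - f ((c i).ψ z)) =ᶠ[𝓝 z]
        (fun z => A th (f ((c i).ψ z)) - A 0 (f ((c i).ψ z))) := by
      filter_upwards [(c i).openV.mem_nhds ((hL i).2 hz)] with w hw
      rw [hA.zero _ (hf.maps ((c i).mapsψ w hw).1)]
    have h3 := (h2.iteratedFDeriv ℝ k).eq_of_nhds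
    rw [← h3] at h1
    exact h1
  · intro F om Θ hD
    have hex : ∀ i, ∃ δ > 0, ∀ p z, (p, z) ∈ ((({0} : Set ℝ) ×ˢ Icc (0 : ℝ) Θ) ×ˢ L i) →
        ∀ p' : ℝ × ℝ, ‖p' - p‖ ≤ δ →
        (p', z) ∈ (({b : ℝ | |b| < 1} ×ˢ (univ : Set ℝ)) ×ˢ (c i).V) ∧ ∀ k ≤ r,
        ‖iteratedFDeriv ℝ k (fun z => A (p'.2 + del p'.1 om F ((c i).ψ z)) (f ((c i).ψ z)) -
          A (p.2 + del p.1 om F ((c i).ψ z)) (f ((c i).ψ z))) z‖ ≤ ε := by
      intro i
      have hopen : IsOpen {b : ℝ | |b| < 1} := isOpen_lt continuous_abs continuous_const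
      have hsm : ContDiffOn ℝ r (fun q : (ℝ × ℝ) × E N =>
          A (q.1.2 + del q.1.1 om F ((c i).ψ q.2)) (f ((c i).ψ q.2)))
          (({b : ℝ | |b| < 1} ×ˢ (univ : Set ℝ)) ×ˢ (c i).V) := by
        have hψ : ContDiffOn ℝ s (fun q : (ℝ × ℝ) × E N => (c i).ψ q.2)
            (({b : ℝ | |b| < 1} ×ˢ (univ : Set ℝ)) ×ˢ (c i).V) :=
          ((c i).smoothψ.of_le hs).comp contDiff_snd.contDiffOn (fun q hq => hq.2)
        have h0 : ContDiffOn ℝ s (fun q : (ℝ × ℝ) × E N => del q.1.1 om F ((c i).ψ q.2))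
            (({b : ℝ | |b| < 1} ×ˢ (univ : Set ℝ)) ×ˢ (c i).V) := by
          have h01 : ContDiffOn ℝ s (fun q : (ℝ × ℝ) × E N => (q.1.1, (c i).ψ q.2))
              (({b : ℝ | |b| < 1} ×ˢ (univ : Set ℝ)) ×ˢ (c i).V) :=
            (contDiff_fst.comp contDiff_fst).contDiffOn.prodMk hψ
          exact (smooth_del hD).comp h01 (fun q hq => ⟨hq.1.1, ((c i).mapsψ q.2 hq.2).1⟩)
        have h00 : ContDiffOn ℝ s (fun q : (ℝ × ℝ) × E N => q.1.2)
            (({b : ℝ | |b| < 1} ×ˢ (univ : Set ℝ)) ×ˢ (c i).V) :=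
          (contDiff_snd.comp contDiff_fst).contDiffOn
        have h1 : ContDiffOn ℝ s (fun q : (ℝ × ℝ) × E N =>
            (q.1.2 + del q.1.1 om F ((c i).ψ q.2), f ((c i).ψ q.2)))
            (({b : ℝ | |b| < 1} ×ˢ (univ : Set ℝ)) ×ˢ (c i).V) :=
          (h00.add h0).prodMk
            ((smooth_f_psi hs hf (c i)).comp contDiff_snd.contDiffOn (fun q hq => hq.2))
        have h2 := hA.smooth.comp h1
          (fun q hq => ⟨mem_univ _, hf.maps ((c i).mapsψ q.2 hq.2).1⟩)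
        exact h2.of_le hrs
      refine hPAR (ℝ × ℝ) N K r (({b : ℝ | |b| < 1} ×ˢ (univ : Set ℝ)) ×ˢ (c i).V)
        ((({0} : Set ℝ) ×ˢ Icc (0 : ℝ) Θ) ×ˢ L i)
        (fun q : (ℝ × ℝ) × E N => A (q.1.2 + del q.1.1 om F ((c i).ψ q.2)) (f ((c i).ψ q.2)))
        ((hopen.prod isOpen_univ).prod (c i).openV) hsm
        ((isCompact_singleton.prod isCompact_Icc).prod (hL i).1)
        (prod_mono (prod_mono ?_ (subset_univ _)) (hL i).2) ε hε
      intro b hb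
      rw [mem_singleton_iff] at hb
      simp [hb]
    choose δ hδ hδ' using hex
    obtain ⟨d, hd, hd2, hd'⟩ := exists_pos_le_all δ hδ
    refine ⟨d, hd, hd2, ?_⟩
    intro b th hb hth hth' i k hk z hz
    have h1 := (hδ' i (0, th) z ⟨⟨rfl, hth, hth'⟩, hz⟩ (b, th) (by
      rw [Prod.mk_sub_mk, sub_zero, sub_self, Prod.norm_mk, norm_zero, Real.norm_eq_abs,
        max_eq_left (abs_nonneg b)]
      exact hb.trans (hd' i))).2 k hk
    have h2 : (fun z => (f ∘ hh A b om th F) ((c i).ψ z) -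
        (fun x => A th (f x)) ((c i).ψ z)) =ᶠ[𝓝 z]
        (fun z => A (((b, th) : ℝ × ℝ).2 + del ((b, th) : ℝ × ℝ).1 om F ((c i).ψ z))
          (f ((c i).ψ z)) -
          A (((0, th) : ℝ × ℝ).2 + del ((0, th) : ℝ × ℝ).1 om F ((c i).ψ z))
            (f ((c i).ψ z))) := by
      filter_upwards [(c i).openV.mem_nhds ((hL i).2 hz)] with w hw
      simp only [Function.comp_apply, hh, del_zero, add_zero]
      rw [hc _ _ ((c i).mapsψ w hw).1]
    have h3 := (h2.iteratedFDeriv ℝ k).eq_of_nhds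
    rw [← h3] at h1
    exact h1

end Pool.Agent.Helper70.CIR
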